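import Pool.Agent.U613.SL.Lat

set_option autoImplicit false

/-!
# Poonen's strict form for the lattices of sublattices of finite distributive lattices

Let `L` be a finite distributive lattice and let `A` be a finite separating union-closed family whose
inclusion order is dual to the lattice of all sublattices of `L` (the empty one included). Unless `A`
is a power set, some element lies in strictly more than half of the members of `A`.

Proof. If `L` is a chain, the lattice of its sublattices is Boolean and `A` is a power set. Otherwise
let `u` be the lowest element of `L` with at least two upper covers. Everything below `u` is a chain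
of elements comparable with all elements of `L`, and may be removed. For the lattice `↑u` there is
an injection of the sublattices containing the pseudo-complement `x` of an atom `p` into those which do
not contain `x`, and it misses the sublattice `{p}`.
-/

namespace Pool.Agent.Results.MP_75f39d_co.DistributiveSublattices

universe u v

theorem result (L : Type u) [DistribLattice L] [Finite L] (α : Type v) [DecidableEq α]
    (A : Finset (Finset α)) (hL : Nonempty ({X // X ∈ A} ≃o (Sublattice L)ᵒᵈ))
    (hunion : ∀ X ∈ A, ∀ Y ∈ A, X ∪ Y ∈ A)
    (hsep : ∀ x ∈ A.sup id, ∀ y ∈ A.sup id, x ≠ y →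
      ∃ S ∈ A, (x ∈ S ∧ y ∉ S) ∨ (y ∈ S ∧ x ∉ S))
    (hpow : A ≠ (A.sup id).powerset) :
    ∃ x ∈ A.sup id, 2 * (A.filter fun S => x ∈ S).card > A.card := by
  obtain ⟨e⟩ := hL
  have : Finite (Sublattice L) := Finite.of_injective
    (fun H : Sublattice L => (H : Set L)) SetLike.coe_injective
  have hne : A.Nonempty := by
    obtain ⟨X, hX⟩ := e.symm (OrderDual.toDual ⊥)
    exact ⟨X, hX⟩
  exact Pool.Agent.R636.FL.poonen_of_good A hunion e (Pool.Agent.U613.SL.good L) hne hsep hpow

end Pool.Agent.Results.MP_75f39d_co.DistributiveSublattices
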