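import Mathlib
import Pool.Agent.U475.PR2

set_option autoImplicit false

/-!
# Poonen's strict inequality for union-closed families generated by pseudorandom systems of sets

Let `g i`, `i ∈ I`, be `N` subsets of an `n`-element set `V` (repetitions allowed), and let
`e(S, W) = ∑_{i ∈ S} |g i ∩ W|` count the incidences between `S ⊆ I` and `W ⊆ V`.  The system is
`(p, β)`-jumbled from below if its density is at most `p` and
`e(S, W) ≥ p |S| |W| - β √(|S| |W|)` for all `S ⊆ I` and `W ⊆ V` (half of Thomason's condition for
pseudorandom bipartite graphs; no regularity of the degrees is asked).  Put `d = p n` and `D = p N`,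
the average size of a set and the average degree of a point.

Theorem.  If `p ≤ 1/2`, `D ≥ e^150` and `β² ≤ d (log D)² / 100`, then in every union-closed family `A`
generated by the sets `g i` the average size of a member is larger than `n / 2`, and some element lies
in strictly more than half of the members.

The condition is met with room to spare by the two kinds of extreme examples: for random systems and
for Ramanujan bipartite graphs, generalised polygons and symmetric designs of large degree one has
`β² = O(d + D)`.

Proof.  A member with at most `n / 2` elements is the union of a list of at most `2 / p` generators,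
each covering at least `d / 4` new points, and of some of the generators with fewer than `d / 4` points
outside the union of the list; by the discrepancy condition there are at most `8 β² / (p² n)` of these.
On the other hand the unions of all generators which avoid `c = ⌊log D / (6 p)⌋` random points miss
only few points for a substantial proportion of the choices, which gives
`exp (0.07 (log D)² / p)` members of size more than `3 n / 4`, more than twice the number of the
members of size at most `n / 2`.
-/

namespace Pool.Agent.Results.MP_75f39d_co.PseudorandomGenerators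

variable {ι α : Type*} [DecidableEq ι] [DecidableEq α]

/-- The number of incidences between the generators `g i`, `i ∈ S`, and the points in `W`. -/
def incidences (g : ι → Finset α) (S : Finset ι) (W : Finset α) : ℕ := ∑ i ∈ S, (g i ∩ W).card

/-- The sets `g i`, `i ∈ I`, are subsets of `V`, their density is at most `p`, and for all `S ⊆ I` and
`W ⊆ V` there are at least `p |S| |W| - β √(|S| |W|)` incidences between `S` and `W`. -/
structure JumbledBelow (I : Finset ι) (V : Finset α) (g : ι → Finset α) (p β : ℝ) : Prop where
  subset : ∀ i ∈ I, g i ⊆ V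
  density : (incidences g I V : ℝ) ≤ p * I.card * V.card
  discrepancy : ∀ S ⊆ I, ∀ W ⊆ V,
    p * S.card * W.card - β * √((S.card : ℝ) * W.card) ≤ (incidences g S W : ℝ)

/-- `A` is a union-closed family generated by the sets `g i`, `i ∈ I`: these sets are members, and
every member is the union of some of them. -/
structure Generates (I : Finset ι) (g : ι → Finset α) (A : Finset (Finset α)) : Prop where
  closed : ∀ X ∈ A, ∀ Y ∈ A, X ∪ Y ∈ A
  mem : ∀ i ∈ I, g i ∈ A
  union : ∀ X ∈ A, ∃ S ⊆ I, X = S.biUnion g

theorem result (I : Finset ι) (V : Finset α) (g : ι → Finset α) (p β : ℝ) (hp : 0 < p)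
    (hp2 : p ≤ 1 / 2) (hV : V.Nonempty) (hJ : JumbledBelow I V g p β)
    (hD : Real.exp 150 ≤ p * I.card)
    (hβ : β ^ 2 ≤ p * V.card * Real.log (p * I.card) ^ 2 / 100)
    (A : Finset (Finset α)) (hA : Generates I g A) :
    (V.card : ℝ) * A.card < 2 * ∑ X ∈ A, (X.card : ℝ) ∧
      ∃ x ∈ V, A.card < 2 * (A.filter (fun X => x ∈ X)).card := by
  have hsub : A ⊆ Pool.Agent.U475.PR.gen I g := by
    intro X hX
    obtain ⟨S, hS, rfl⟩ := hA.union X hX
    exact Pool.Agent.U475.PR.mem_gen.mpr ⟨S, hS, rfl⟩
  have hsup : ∀ U ∈ Pool.Agent.U475.PR.gen I g, U.Nonempty → U ∈ A := by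
    intro U hU hne
    obtain ⟨S, hS, rfl⟩ := Pool.Agent.U475.PR.mem_gen.mp hU
    clear hU
    induction S using Finset.induction_on with
    | empty => simp at hne
    | insert i S hi ih =>
      rw [Finset.biUnion_insert]
      have h1 : g i ∈ A := hA.mem i (hS (Finset.mem_insert_self _ _))
      by_cases h2 : (S.biUnion g).Nonempty
      · exact hA.closed _ h1 _ (ih ((Finset.subset_insert _ _).trans hS) h2)
      · rw [Finset.not_nonempty_iff_eq_empty] at h2
        rw [h2, Finset.union_empty]
        exact h1
  have hdens : ((∑ i ∈ I, (g i).card : ℕ) : ℝ) ≤ p * I.card * V.card := by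
    refine le_trans (le_of_eq ?_) hJ.density
    rw [incidences]
    congr 1
    apply Finset.sum_congr rfl
    intro i hi
    rw [Finset.inter_eq_left.mpr (hJ.subset i hi)]
  have havg := Pool.Agent.U475.PR.average hp hp2 hJ.subset hV hD hβ hdens hJ.discrepancy
  have hmain := Pool.Agent.U475.PR.main hp hp2 hJ.subset hV hD hβ hdens hJ.discrepancy
  have hcard : (A.card : ℝ) ≤ (Pool.Agent.U475.PR.gen I g).card := by
    exact_mod_cast Finset.card_le_card hsub
  have hsum : ∑ U ∈ Pool.Agent.U475.PR.gen I g, (U.card : ℝ) = ∑ X ∈ A, (X.card : ℝ) := by
    symm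
    apply Finset.sum_subset hsub
    intro U hU hUA
    have : ¬ U.Nonempty := fun h => hUA (hsup U hU h)
    rw [Finset.not_nonempty_iff_eq_empty] at this
    rw [this]
    simp
  refine ⟨?_, ?_⟩
  · rw [hsum] at havg
    refine lt_of_le_of_lt ?_ havg
    exact mul_le_mul_of_nonneg_left hcard (by positivity)
  · obtain ⟨x, hx, hlt⟩ := hmain
    refine ⟨x, hx, ?_⟩
    have h1 : (Pool.Agent.U475.PR.gen I g).filter (fun U => x ∈ U) =
        A.filter (fun X => x ∈ X) := by
      ext U
      simp only [Finset.mem_filter]
      exact ⟨fun h => ⟨hsup U h.1 ⟨x, h.2⟩, h.2⟩, fun h => ⟨hsub h.1, h.2⟩⟩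
    rw [h1] at hlt
    exact lt_of_le_of_lt (Finset.card_le_card hsub) hlt

end Pool.Agent.Results.MP_75f39d_co.PseudorandomGenerators
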