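import Pool.Agent.U133.FD.Strict

set_option autoImplicit false

/-!
# Poonen's strict form for the subgroup lattices of finite solvable groups

We prove Poonen's strengthening of the union-closed sets conjecture for every separating finite
union-closed family whose inclusion order is isomorphic to the lattice of all subgroups of a finite
solvable group, or dual to the lattice of the intermediate fields of a finite Galois extension with
solvable Galois group: unless the family is a power set, some element lies in strictly more than
half of its members.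

Proof. Let `N` be a minimal normal subgroup. The Frattini argument gives a meet-irreducible subgroup
`H` with `H ∩ N = 1` (see the file `Pool.Agent.U133.FD.Solv`), and `K ↦ K N` maps the subgroups of `H`
injectively to subgroups which are not contained in `H`. So `H` contains at most half of the
subgroups. Equality forces the lattice to be the product of the lattice of the subgroups that
contain `N`, which is the one of `G / N`, and a chain of length one, and one concludes by induction.
-/

namespace Pool.Agent.Results.MP_75f39d_co.SolvableSubgroupLattices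

open OrderDual

universe u v w

theorem result :
    -- finite solvable groups
    (∀ (G : Type u) [Group G] [Finite G], Group.IsSolvable G →
      ∀ (α : Type w) [DecidableEq α] (A : Finset (Finset α)),
      Nonempty ({X // X ∈ A} ≃o Subgroup G) →
      (∀ X ∈ A, ∀ Y ∈ A, X ∪ Y ∈ A) →
      (∀ x ∈ A.sup id, ∀ y ∈ A.sup id, x ≠ y → ∃ S ∈ A, (x ∈ S ∧ y ∉ S) ∨ (y ∈ S ∧ x ∉ S)) →
      A ≠ (A.sup id).powerset →
      ∃ x ∈ A.sup id, 2 * (A.filter fun S => x ∈ S).card > A.card) ∧
    -- finite Galois extensions with solvable Galois group
    (∀ (F : Type u) (E : Type v) [Field F] [Field E] [Algebra F E] [FiniteDimensional F E]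
      [IsGalois F E], Group.IsSolvable (E ≃ₐ[F] E) →
      ∀ (α : Type w) [DecidableEq α] (A : Finset (Finset α)),
      Nonempty ({X // X ∈ A} ≃o (IntermediateField F E)ᵒᵈ) →
      (∀ X ∈ A, ∀ Y ∈ A, X ∪ Y ∈ A) →
      (∀ x ∈ A.sup id, ∀ y ∈ A.sup id, x ≠ y → ∃ S ∈ A, (x ∈ S ∧ y ∉ S) ∨ (y ∈ S ∧ x ∉ S)) →
      A ≠ (A.sup id).powerset →
      ∃ x ∈ A.sup id, 2 * (A.filter fun S => x ∈ S).card > A.card) := by
  refine ⟨?_, ?_⟩
  · rintro G _ _ hs α _ A ⟨e⟩ hA hsep hpow
    exact Pool.Agent.R636.FL.poonen_of_good (L := (Subgroup G)ᵒᵈ) A hA
      (e.trans (OrderIso.dualDual _)) (Pool.Agent.U133.FD.good_solvable G hs)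
      ⟨_, (e.symm ⊤).2⟩ hsep hpow
  · rintro F E _ _ _ _ _ hs α _ A ⟨e⟩ hA hsep hpow
    have hfin : Finite (IntermediateField F E) :=
      Finite.of_equiv _ (IsGalois.intermediateFieldEquivSubgroup (F := F) (E := E)).symm.toEquiv
    have hg : Pool.Agent.R636.FL.Good (IntermediateField F E) :=
      (Pool.Agent.U133.FD.good_solvable (E ≃ₐ[F] E) hs).congr
        (IsGalois.intermediateFieldEquivSubgroup (F := F) (E := E)).symm
    exact Pool.Agent.R636.FL.poonen_of_good A hA e hg ⟨_, (e.symm (toDual ⊥)).2⟩ hsep hpow

end Pool.Agent.Results.MP_75f39d_co.SolvableSubgroupLattices
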