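import Pool.Agent.U129.UC.SNeg2

set_option autoImplicit false

/-!
# Poonen's strict inequality for families with small members: a complete classification

Let `F` be a finite union-closed family. An element `x` is free if `A ∪ {x}` and `A \ {x}` are members
of `F` for all `A ∈ F`; then `F` is the product of the power set of `{x}` and a union-closed family on
the other elements, for which Poonen's question is equivalent to the question for `F`, and a smallest
counterexample to Poonen's statement has no free element. Let `G` be a family of nonempty sets with at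
most three elements which is absorbed by `F`, that is `A ∪ B ∈ F` for `A ∈ F`, `B ∈ G` (for instance
`G ⊆ F`). We determine all `G` for which this implies the strict inequality for an element of `⋃ G`, or
a free element, whatever `F` is:

* If `G` contains a set with one element, or a connected subfamily of sets with two or three elements
  which is not isomorphic to one of thirteen explicit families (`exceptional`; they have at most four
  members), then there is an element `x ∈ ⋃ G` such that for all `F` which absorb `G` some element of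
  `⋃ G` lies in strictly more than half of the members of `F`, or `x` is free.
* Otherwise there is a union-closed family which absorbs `G`, in which no element of `⋃ G` lies in more
  than half of the members, and none is free.

In particular a union-closed family without free elements which contains (or absorbs) five or more sets
with two or three elements forming a connected family has an element in strictly more than half of
its members; this number is best possible.

The thirteen families are analogous to the Dynkin diagrams: for seven of them (the loose paths with at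
most four sets and the forked paths) the associated eigenvalue is smaller than one (they are the
connected families of 3-sets which are not FC, see `MP_9bc572_co.ConnectedThreeSets`), and for six it is
one and the eigenvector is the only solution of the inequalities for the weights.

Proof. Let `c ≥ 0` be weights such that for all `x ∈ ⋃ G` and every down-closed family `𝒟` of
sets `D` with `B ⊄ D ∪ {x}` for `x ∈ B ∈ G` the weight of the edges leaving `𝒟` is at least `c_x |𝒟|`,
and at least `(c_x + 1) |𝒟|` if `x = x₀`. Counting the edges `U_w`, `D_w` entering and leaving a part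
`K` of `F` in direction `w` one gets `∑ c_w U_w ≥ ∑ c_w D_w + D_{x₀}` (`boundary_b`, by the method of
the starting result `FCCharacterization`), so for the weights `M = 2 c + 1_{x₀}` the average over `K`
exceeds one half of the total by a multiple of `U_{x₀} + D_{x₀}`, which is positive unless `x₀` is free
in `K` (`avg_b`, `forced_of_weights`). The weights for twenty-six families with at most five
sets are verified locally by finite checks (`SMin.lean`), and growing a connected family set by set
one meets one of the twenty-six unless it is one of the thirteen (`STab.lean`, 1024 cases). For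
the converse there are positive integers `y_i`, `i ∈ ⋃ G`, such that the sum of the vectors of the
differences `U - D` of the families `2^S \ {D ∪ {i} : D ∈ 𝒟_i}` (`S = ⋃ G`, `𝒟_i` the largest possible
`𝒟` for `i`), each taken `y_i 2^{deg}` times, is `≤ 0` (`snons_dual`, and `not_forced` for unions of disjoint copies); these
families are put together to one union-closed family with the help of further elements (`exists_of_dual`).
-/

namespace Pool.Agent.Results.MP_75f39d_co.StrictThreeSets

open Finset

/-- union-closed -/
def UnionClosed (F : Finset (Finset ℕ)) : Prop := ∀ A ∈ F, ∀ B ∈ F, A ∪ B ∈ F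

/-- `F` absorbs `G` -/
def Absorbs (F G : Finset (Finset ℕ)) : Prop := ∀ A ∈ F, ∀ B ∈ G, A ∪ B ∈ F

/-- `x` lies in more than half of the members of `F` -/
def MoreThanHalf (F : Finset (Finset ℕ)) (x : ℕ) : Prop :=
  F.card < 2 * (F.filter (fun A => x ∈ A)).card

/-- `F` is closed under adding and removing `x` -/
def FreeElement (F : Finset (Finset ℕ)) (x : ℕ) : Prop := ∀ A ∈ F, insert x A ∈ F ∧ A.erase x ∈ F

/-- `C` is not empty and cannot be divided into two nonempty parts such that every member of one
part is disjoint from every member of the other part -/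
def Connected (C : Finset (Finset ℕ)) : Prop :=
  C.Nonempty ∧ ∀ H ⊆ C, H.Nonempty → H ≠ C → ∃ A ∈ H, ∃ B ∈ C, B ∉ H ∧ ¬ Disjoint A B

/-- `C'` arises from `C` by a permutation of the natural numbers -/
def Iso (C C' : Finset (Finset ℕ)) : Prop :=
  ∃ σ : Equiv.Perm ℕ, C' = C.image (fun A => A.image σ)

/-- the thirteen exceptional families: seven loose and forked paths, and six others -/
def exceptional : List (Finset (Finset ℕ)) :=
  [{{0, 1, 2}}, {{0, 1, 2}, {2, 3, 4}}, {{0, 1, 2}, {2, 3, 4}, {4, 5, 6}},
   {{0, 1, 2}, {2, 3, 4}, {4, 5, 6}, {6, 7, 8}},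
   {{0, 1, 2}, {0, 1, 3}}, {{0, 1, 2}, {0, 1, 5}, {2, 3, 4}},
   {{0, 1, 2}, {0, 1, 7}, {2, 3, 4}, {4, 5, 6}},
   {{0, 1}}, {{0, 1, 2}, {0, 1, 3}, {0, 1, 4}}, {{0, 1, 2}, {0, 3, 4}, {0, 5, 6}},
   {{0, 1, 2}, {0, 1, 3}, {2, 4, 5}, {4, 5, 6}}, {{0, 1, 2}, {0, 1, 3}, {2, 4, 5}, {3, 6, 7}},
   {{0, 1, 2}, {0, 3, 4}, {1, 5, 6}, {2, 7, 8}}]

/-- `G` contains a set with one element or a connected subfamily of sets with two or three elements
which is not exceptional -/
def Forcing (G : Finset (Finset ℕ)) : Prop :=
  (∃ A ∈ G, A.card = 1) ∨ ∃ C ⊆ G, (∀ A ∈ C, A.card = 2 ∨ A.card = 3) ∧ Connected C ∧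
    ∀ E ∈ exceptional, ¬ Iso E C

theorem result :
    (∀ G : Finset (Finset ℕ), (∀ A ∈ G, A.card ≤ 3) → (G.biUnion id).Nonempty →
      (Forcing G → ∃ x ∈ G.biUnion id, ∀ F : Finset (Finset ℕ), UnionClosed F → Absorbs F G →
        (∃ y ∈ G.biUnion id, MoreThanHalf F y) ∨ FreeElement F x) ∧
      (¬ Forcing G → ∃ F : Finset (Finset ℕ), UnionClosed F ∧ Absorbs F G ∧
        ∀ x ∈ G.biUnion id, ¬ MoreThanHalf F x ∧ ¬ FreeElement F x)) ∧
    (∀ C : Finset (Finset ℕ), (∀ A ∈ C, A.card = 2 ∨ A.card = 3) → Connected C → 5 ≤ C.card →
      Forcing C) ∧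
    (∀ F G : Finset (Finset ℕ), F.Nonempty → UnionClosed F → (∀ x ∈ F.biUnion id, ¬ FreeElement F x) →
      (∀ A ∈ G, A.card ≤ 3) → Absorbs F G → Forcing G → ∃ y ∈ G.biUnion id, MoreThanHalf F y) := by
  have hiso : ∀ C : Finset (Finset ℕ), (¬ ∃ N ∈ U129.UC.snons, U129.UC.Iso N C) ↔
      ∀ E ∈ exceptional, ¬ Iso E C := by
    intro C
    have h0 : ∀ N : Finset (Finset ℕ), U129.UC.Iso N C ↔ Iso N C :=
      fun N => ⟨fun ⟨σ, h⟩ => ⟨σ, h.symm⟩, fun ⟨σ, h⟩ => ⟨σ, h.symm⟩⟩
    have h1 : ∀ N ∈ U129.UC.snons, N ∈ exceptional := by decide +kernel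
    have h2 : ∀ N ∈ exceptional, N ∈ U129.UC.snons := by decide +kernel
    constructor
    · intro h E hE hC
      exact h ⟨E, h2 E hE, (h0 E).2 hC⟩
    · rintro h ⟨N, hN, hC⟩
      exact h N (h1 N hN) ((h0 N).1 hC)
  have hforc : ∀ G : Finset (Finset ℕ), Forcing G ↔ ((∃ A ∈ G, A.card = 1) ∨
      ∃ C ⊆ G, (∀ A ∈ C, A.card = 2 ∨ A.card = 3) ∧ U129.UC.Conn C ∧
        ¬ ∃ N ∈ U129.UC.snons, U129.UC.Iso N C) := by
    intro G
    simp only [hiso]
    rfl
  have hpos : ∀ G : Finset (Finset ℕ), (∀ A ∈ G, A.card ≤ 3) → Forcing G →
      ∃ x ∈ G.biUnion id, ∀ F : Finset (Finset ℕ), UnionClosed F → Absorbs F G →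
        (∃ y ∈ G.biUnion id, MoreThanHalf F y) ∨ FreeElement F x := by
    intro G h3 hG
    exact (U129.UC.sclassification h3).2 ((hforc G).1 hG)
  refine ⟨fun G h3 hne => ⟨hpos G h3, fun hG => ?_⟩, ?_, ?_⟩
  · rw [hforc] at hG
    push Not at hG
    obtain ⟨F, f1, f2, f3, f4⟩ := U129.UC.not_forced hne (fun A hA => hG.1 A hA) h3
      (fun C hC h3 hconn => hG.2 C hC h3 hconn)
    exact ⟨F, f1, f2, fun x hx => ⟨fun h => by have := f3 x hx; unfold MoreThanHalf at h; omega,
      f4 x hx⟩⟩
  · intro C hC hconn h5
    right
    refine ⟨C, Subset.rfl, hC, hconn, ?_⟩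
    rw [← hiso]
    rintro ⟨N, hN, σ, rfl⟩
    have := U129.UC.snons_card N hN
    rw [U129.UC.card_ren] at h5
    omega
  · intro F G hne hF hfree h3 ha hG
    obtain ⟨x, hx, h⟩ := hpos G h3 hG
    refine (h F hF ha).resolve_right (hfree x ?_)
    obtain ⟨A, hA⟩ := hne
    obtain ⟨B, hB, hxB⟩ := mem_biUnion.1 hx
    exact mem_biUnion.2 ⟨A ∪ B, ha A hA B hB, mem_union_right _ hxB⟩

end Pool.Agent.Results.MP_75f39d_co.StrictThreeSets
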